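import Mathlib

namespace Pool.Agent.Results.MP_44e237_gt.Fold

open Set Metric UpperHalfPlane

/-- quasi-isometric embeddings -/
def IsQIE {A B : Type*} [MetricSpace A] [MetricSpace B] (f : A → B) : Prop :=
  ∃ L C : ℝ, 1 ≤ L ∧ 0 ≤ C ∧ ∀ a a', L⁻¹ * dist a a' - C ≤ dist (f a) (f a') ∧
    dist (f a) (f a') ≤ L * dist a a' + C

/-- the graph of `h` inside `X × ℝ` with the product (`ℓ²`) metric -/
def graph {X : Type*} (h : X → ℝ) : Set (WithLp 2 (X × ℝ)) :=
  range fun x => WithLp.toLp 2 (x, h x)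

/-- `f` is a coarse Lipschitz graph -/
def IsLipGraph {X : Type*} [MetricSpace X] (f : X → WithLp 2 (X × ℝ)) : Prop :=
  ∃ (K : NNReal) (h : X → ℝ), LipschitzWith K h ∧ hausdorffEDist (range f) (graph h) ≠ ⊤

/-- some quasi-isometric embedding `X → X × ℝ` is not a coarse Lipschitz graph -/
def Fails (X : Type*) [MetricSpace X] : Prop :=
  ∃ f : X → WithLp 2 (X × ℝ), IsQIE f ∧ ¬ IsLipGraph f

lemma dist_sq {X Y : Type*} [MetricSpace X] [MetricSpace Y] (p q : WithLp 2 (X × Y)) :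
    dist p q = √(dist p.fst q.fst ^ 2 + dist p.snd q.snd ^ 2) := by
  rw [WithLp.prod_dist_eq_add (by norm_num), Real.sqrt_eq_rpow]
  norm_num

lemma fails_of {X : Type*} [MetricSpace X] (r : X → X) (hr : Isometry r) (s : X → ℝ)
    (hs : ∀ x, s (r x) = -s x) (hrr : ∀ x, r (r x) = x)
    (hd : ∀ w q, s w ≤ 0 → 0 ≤ s q → dist w (r q) ≤ dist w q)
    (hu : ∀ C : ℝ, ∃ z, ∀ w, 0 ≤ s w → C < dist z w) : Fails X := by
  classical
  obtain ⟨z0, -⟩ := hu 0
  have hR : {x | 0 ≤ s x}.Nonempty := by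
    rcases le_total 0 (s z0) with h | h
    exacts [⟨z0, h⟩, ⟨r z0, by simpa [hs] using h⟩]
  have hL : {x | s x ≤ 0}.Nonempty := by
    obtain ⟨x, hx⟩ := hR
    exact ⟨r x, by simpa [hs] using hx⟩
  let F : X → X := fun x => if 0 ≤ s x then x else r x
  let g : X → ℝ := fun x => infDist x {x | s x ≤ 0} - infDist x {x | 0 ≤ s x}
  have hF : ∀ x, 0 ≤ s (F x) := fun x => by
    simp only [F]; split_ifs with h
    exacts [h, by rw [hs]; linarith]
  have hg : ∀ x y, dist (g x) (g y) ≤ 2 * dist x y := fun x y => by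
    have h1 := (lipschitz_infDist_pt {x | s x ≤ 0}).dist_le_mul x y
    have h2 := (lipschitz_infDist_pt {x | 0 ≤ s x}).dist_le_mul x y
    have := dist_sub_sub_le (infDist x {x | s x ≤ 0}) (infDist x {x | 0 ≤ s x})
      (infDist y {x | s x ≤ 0}) (infDist y {x | 0 ≤ s x})
    simp only [NNReal.coe_one, one_mul] at h1 h2
    simp only [g]; linarith
  have key : ∀ x y, 0 ≤ s x → ¬ 0 ≤ s y →
      dist x (r y) ≤ dist x y ∧ dist x y ≤ dist x (r y) + 2 * dist (g x) (g y) := by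
    intro x y hx hy
    have hy' : s y ≤ 0 := (not_le.1 hy).le
    constructor
    · have := hd y x hy' hx
      rwa [← hr.dist_eq, hrr, dist_comm (r y), dist_comm y] at this
    · have h1 : dist x (r x) / 2 ≤ infDist x {x | s x ≤ 0} := by
        refine (le_infDist hL).2 fun w hw => ?_
        have := hd w x hw hx
        have := dist_triangle x w (r x)
        rw [dist_comm x w] at *
        linarith
      have h2 : infDist x {x | s x ≤ 0} ≤ dist (g x) (g y) := by
        have e1 : infDist x {x | 0 ≤ s x} = 0 := infDist_zero_of_mem hx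
        have e2 : infDist y {x | s x ≤ 0} = 0 := infDist_zero_of_mem hy'
        simp only [g, e1, e2, Real.dist_eq]
        have := infDist_nonneg (x := y) (s := {x | 0 ≤ s x})
        exact le_trans (by linarith) (le_abs_self _)
      have h3 := dist_triangle x (r x) y
      have h4 : dist (r x) y = dist x (r y) := by rw [← hr.dist_eq, hrr]
      linarith
  have both : ∀ x y, dist (F x) (F y) ≤ dist x y ∧
      dist x y ≤ dist (F x) (F y) + 2 * dist (g x) (g y) := fun x y => by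
    have := dist_nonneg (x := g x) (y := g y)
    simp only [F]
    split_ifs with h1 h2 h2
    · exact ⟨le_rfl, by linarith⟩
    · exact key x y h1 h2
    · simpa only [dist_comm] using key y x h2 h1
    · rw [hr.dist_eq]; exact ⟨le_rfl, by linarith⟩
  refine ⟨fun x => WithLp.toLp 2 (F x, g x), ⟨3, 0, by norm_num, le_rfl, fun x y => ?_⟩, ?_⟩
  · rw [dist_sq]
    simp only [WithLp.toLp_fst, WithLp.toLp_snd, sub_zero, add_zero]
    obtain ⟨h1, h2⟩ := both x y
    have h3 := hg x y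
    have p1 := dist_nonneg (x := g x) (y := g y)
    have p2 := dist_nonneg (x := F x) (y := F y)
    have p3 := dist_nonneg (x := x) (y := y)
    constructor
    · apply Real.le_sqrt_of_sq_le
      nlinarith [sq_nonneg (dist (g x) (g y) - 2 * dist (F x) (F y))]
    · apply Real.sqrt_le_iff.2
      exact ⟨by positivity, by nlinarith⟩
  · rintro ⟨K, h, -, hfin⟩
    obtain ⟨C, hC⟩ := ENNReal.lt_iff_exists_nnreal_btwn.1 hfin.lt_top
    obtain ⟨z, hz⟩ := hu C
    rw [hausdorffEDist_comm] at hC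
    obtain ⟨_, ⟨w, rfl⟩, hw⟩ := exists_edist_lt_of_hausdorffEDist_lt
      (show WithLp.toLp 2 (z, h z) ∈ graph h from ⟨z, rfl⟩) hC.1
    rw [edist_lt_coe, ← NNReal.coe_lt_coe, coe_nndist, dist_sq] at hw
    simp only [WithLp.toLp_fst, WithLp.toLp_snd] at hw
    have := Real.le_sqrt_of_sq_le (show dist z (F w) ^ 2 ≤ dist z (F w) ^ 2 + dist (h z) (g w) ^ 2 by
      nlinarith [sq_nonneg (dist (h z) (g w))])
    linarith [hz (F w) (hF w)]

noncomputable def refl (z : ℍ) : ℍ := ⟨⟨-z.re, z.im⟩, z.im_pos⟩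

lemma cosh_eq (z w : ℍ) :
    Real.cosh (dist z w) = ((z.re - w.re) ^ 2 + z.im ^ 2 + w.im ^ 2) / (2 * z.im * w.im) :=
  cosh_dist' z w

lemma refl_iso : Isometry refl := Isometry.of_dist_eq fun z w => by
  apply Real.cosh_strictMonoOn.injOn dist_nonneg dist_nonneg
  rw [cosh_eq, cosh_eq]
  change ((-z.re - -w.re) ^ 2 + z.im ^ 2 + w.im ^ 2) / (2 * z.im * w.im) = _
  ring

lemma refl_refl (z : ℍ) : refl (refl z) = z := by
  apply UpperHalfPlane.ext
  apply Complex.ext
  · exact neg_neg _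
  · rfl

lemma refl_le (w q : ℍ) (hw : w.re ≤ 0) (hq : 0 ≤ q.re) : dist w (refl q) ≤ dist w q := by
  rw [← Real.cosh_strictMonoOn.le_iff_le dist_nonneg dist_nonneg, cosh_eq, cosh_eq]
  change ((w.re - -q.re) ^ 2 + w.im ^ 2 + q.im ^ 2) / (2 * w.im * q.im) ≤ _
  have := w.im_pos
  have := q.im_pos
  gcongr ?_ / _
  nlinarith [mul_nonneg (neg_nonneg.2 hw) hq]

lemma far (C : ℝ) : ∃ z : ℍ, ∀ w : ℍ, 0 ≤ w.re → C < dist z w := by
  refine ⟨⟨⟨-(Real.cosh C + 1), 1⟩, one_pos⟩, fun w hw => ?_⟩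
  refine lt_of_le_of_lt (le_abs_self C) ?_
  rw [← Real.cosh_strictMonoOn.lt_iff_lt (abs_nonneg C) dist_nonneg, cosh_eq, Real.cosh_abs]
  change _ < ((-(Real.cosh C + 1) - w.re) ^ 2 + 1 ^ 2 + w.im ^ 2) / (2 * 1 * w.im)
  have := w.im_pos
  have := Real.cosh_pos C
  rw [lt_div_iff₀ (by positivity)]
  nlinarith [sq_nonneg (Real.cosh C - w.im), mul_nonneg hw this.le]

theorem result : Fails ℍ ∧
    ∀ (Y : Type) [MetricSpace Y] [Nonempty Y], Fails (WithLp 2 (ℍ × Y)) := by
  refine ⟨fails_of refl refl_iso (fun z => z.re) (fun _ => rfl) refl_refl refl_le far,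
    fun Y _ _ => fails_of (fun p => WithLp.toLp 2 (refl p.fst, p.snd))
      (Isometry.of_dist_eq fun p q => ?_) (fun p => p.fst.re) (fun _ => rfl) (fun p => ?_)
      (fun w q hw hq => ?_) fun C => ?_⟩
  · simp only [dist_sq, WithLp.toLp_fst, WithLp.toLp_snd, refl_iso.dist_eq]
  · simp only [WithLp.toLp_fst, WithLp.toLp_snd, refl_refl]; rfl
  · simp only [dist_sq, WithLp.toLp_fst, WithLp.toLp_snd]
    gcongr
    exact refl_le _ _ hw hq
  · obtain ⟨z, hz⟩ := far C
    refine ⟨WithLp.toLp 2 (z, Classical.arbitrary Y), fun w hw => (hz _ hw).trans_le ?_⟩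
    rw [dist_sq]
    exact Real.le_sqrt_of_sq_le (le_add_of_nonneg_right (sq_nonneg _))

end Pool.Agent.Results.MP_44e237_gt.Fold
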